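import Mathlib

set_option autoImplicit false

namespace Pool.Agent.Results.MP_66eb21_an.No
open Set Function

variable {G I H J : Type} [Group G] [Group H]

/-- basis vector -/
noncomputable def bas (g : G) (i : I) : G × I → ℝ := indicator {(g, i)} 1

/-- the linear action -/
def act (g : G) (v : G × I → ℝ) : G × I → ℝ := fun c => v (g⁻¹ * c.1, c.2)

/-- admissible finite set -/
def Adm (W : Finset (G × I → ℝ)) : Prop :=
  0 ∈ W ∧ (∀ w ∈ W, -w ∈ W) ∧ (∀ g, ∀ w ∈ W, act g w ∈ W) ∧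
    (∀ i j, i ≠ j → bas 1 i - bas 1 j ∈ W) ∧ ∀ g i, bas g i ∈ W

/-- invariant norm given on the finite set only -/
def PNorm (W : Finset (G × I → ℝ)) (p : (G × I → ℝ) → ℝ) : Prop :=
  ∀ w ∈ W, 0 ≤ p w ∧ (p w = 0 ↔ w = 0) ∧ (∀ a : ℝ, a • w ∈ W → p (a • w) = |a| * p w) ∧
    (∀ β : (G × I → ℝ) → ℝ, w = ∑ v ∈ W, β v • v → p w ≤ ∑ v ∈ W, |β v| * p v) ∧
    ∀ g, p (act g w) = p w

/-- rational finitely presented action -/
def RFP (W : Finset (G × I → ℝ)) (p : (G × I → ℝ) → ℝ) : Prop :=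
  Adm W ∧ PNorm W p ∧ ∀ w ∈ W, (∀ c, ∃ q : ℚ, w c = q) ∧ ∃ q : ℚ, p w = q

/-- maximal extension -/
noncomputable def ext (W : Finset (G × I → ℝ)) (p : (G × I → ℝ) → ℝ) (x : G × I → ℝ) : ℝ :=
  sInf {r | ∃ β : (G × I → ℝ) → ℝ, x = ∑ v ∈ W, β v • v ∧ r = ∑ v ∈ W, |β v| * p v}

/-- embedding -/
def Emb [Fintype G] [Fintype I] (W : Finset (G × I → ℝ)) (p : (G × I → ℝ) → ℝ)
    (W' : Finset (H × J → ℝ)) (p' : (H × J → ℝ) → ℝ) (φ : G →* H) (ψ : I → J) : Prop :=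
  Injective φ ∧ Injective ψ ∧ ∀ x, ext W' p' (∑ c, x c • bas (φ c.1) (ψ c.2)) = ext W p x

omit [Group G] in
theorem ba (g : G) (i : I) (c : G × I) [Decidable (c = (g, i))] :
    bas g i c = if c = (g, i) then 1 else 0 := by
  by_cases h : c = (g, i)
  · rw [if_pos h, bas, indicator_of_mem (by exact h), Pi.one_apply]
  · rw [if_neg h, bas, indicator_of_notMem (by exact h)]

theorem act_bas (g f : G) (i : I) : act g (bas f i) = bas (g * f) i := by
  classical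
  ext c
  simp [act, ba, Prod.ext_iff, inv_mul_eq_iff_eq_mul]

omit [Group G] in
theorem sum_bas [Fintype G] [Fintype I] (x : G × I → ℝ) : ∑ c, x c • bas c.1 c.2 = x := by
  classical
  ext d
  simp [ba, Finset.sum_apply]

variable {W : Finset (G × I → ℝ)} {p : (G × I → ℝ) → ℝ}

theorem bdd (h : RFP W p) (x : G × I → ℝ) :
    BddBelow {r | ∃ β : (G × I → ℝ) → ℝ, x = ∑ v ∈ W, β v • v ∧ r = ∑ v ∈ W, |β v| * p v} :=
  ⟨0, by
    rintro _ ⟨β, -, rfl⟩
    exact Finset.sum_nonneg fun v hv => mul_nonneg (abs_nonneg _) (h.2.1 v hv).1⟩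

theorem ne [Fintype G] [Fintype I] (h : RFP W p) (x : G × I → ℝ) :
    {r | ∃ β : (G × I → ℝ) → ℝ, x = ∑ v ∈ W, β v • v ∧ r = ∑ v ∈ W, |β v| * p v}.Nonempty := by
  have : x ∈ Submodule.span ℝ (W : Set (G × I → ℝ)) := by
    rw [← sum_bas x]
    exact Submodule.sum_mem _ fun c _ => Submodule.smul_mem _ _
      (Submodule.subset_span (h.1.2.2.2.2 _ _))
  obtain ⟨β, -, hβ⟩ := Submodule.mem_span_finset.1 this
  exact ⟨_, β, hβ.symm, rfl⟩

theorem ext_mem (h : RFP W p) {w : G × I → ℝ} (hw : w ∈ W) : ext W p w ≤ p w := by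
  classical
  refine csInf_le (bdd h w) ⟨fun v => if v = w then 1 else 0, by simp [hw], ?_⟩
  rw [Finset.sum_eq_single w (fun v _ e => by simp [e]) fun e => absurd hw e]
  simp

theorem ext_comb [Fintype G] [Fintype I] (h : RFP W p) (a b : ℝ) (x y : G × I → ℝ) :
    ext W p (a • x + b • y) ≤ |a| * ext W p x + |b| * ext W p y := by
  refine le_of_forall_pos_le_add fun ε hε => ?_
  have p0 : 0 < ε / (|a| + |b| + 1) := by positivity
  obtain ⟨_, ⟨β, rfl, rfl⟩, h1⟩ := exists_lt_of_csInf_lt (ne h x) (lt_add_of_pos_right _ p0)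
  obtain ⟨_, ⟨γ, rfl, rfl⟩, h2⟩ := exists_lt_of_csInf_lt (ne h y) (lt_add_of_pos_right _ p0)
  refine (csInf_le (bdd h _) ⟨fun v => a * β v + b * γ v, by
    simp only [Finset.smul_sum, add_smul, mul_smul, Finset.sum_add_distrib], rfl⟩).trans ?_
  have : ∑ v ∈ W, |a * β v + b * γ v| * p v ≤
      |a| * ∑ v ∈ W, |β v| * p v + |b| * ∑ v ∈ W, |γ v| * p v := by
    rw [Finset.mul_sum, Finset.mul_sum, ← Finset.sum_add_distrib]
    refine Finset.sum_le_sum fun v hv => ?_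
    rw [← mul_assoc, ← mul_assoc, ← add_mul, ← abs_mul, ← abs_mul]
    exact mul_le_mul_of_nonneg_right (abs_add_le _ _) (h.2.1 v hv).1
  have e : (|a| + |b| + 1) * (ε / (|a| + |b| + 1)) = ε := mul_div_cancel₀ _ (by positivity)
  have := mul_le_mul_of_nonneg_left h1.le (abs_nonneg a)
  have := mul_le_mul_of_nonneg_left h2.le (abs_nonneg b)
  unfold ext
  linarith

theorem ext_act [Fintype G] [Fintype I] (h : RFP W p) (g : G) (x : G × I → ℝ) :
    ext W p (act g x) ≤ ext W p x := by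
  refine le_csInf (ne h x) ?_
  rintro _ ⟨β, rfl, rfl⟩
  have i1 : ∀ v : G × I → ℝ, act g⁻¹ (act g v) = v := fun v => by ext c; simp [act]
  have i2 : ∀ v : G × I → ℝ, act g (act g⁻¹ v) = v := fun v => by ext c; simp [act]
  refine csInf_le (bdd h _) ⟨fun v => β (act g⁻¹ v), ?_, ?_⟩
  · rw [← Finset.sum_nbij' (act g) (act g⁻¹) (h.1.2.2.1 g) (h.1.2.2.1 _) (fun v _ => i1 v)
      (fun v _ => i2 v) (f := fun v => β v • act g v) (g := fun v => β (act g⁻¹ v) • v)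
      fun v _ => by rw [i1]]
    ext c
    simp [act, Finset.sum_apply]
  · exact Finset.sum_nbij' (act g) (act g⁻¹) (h.1.2.2.1 g) (h.1.2.2.1 _) (fun v _ => i1 v)
      (fun v _ => i2 v) fun v hv => by beta_reduce; rw [i1, (h.2.1 v hv).2.2.2.2]

theorem build [Fintype G] [Fintype I] (N : (G × I → ℝ) → ℝ)
    (h1 : ∀ x y, N (x + y) ≤ N x + N y) (h2 : ∀ (a : ℝ) x, N (a • x) = |a| * N x)
    (h3 : ∀ x, N x = 0 → x = 0) (h4 : ∀ g x, N (act g x) = N x)
    (h5 : ∀ x : G × I → ℝ, (∀ c, ∃ q : ℚ, x c = q) → ∃ q : ℚ, N x = q) (z : G × I → ℝ)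
    (hz : ∀ c, ∃ q : ℚ, z c = q) : ∃ W, RFP W N ∧ z ∈ W ∧ ∀ x, N x ≤ ext W N x := by
  classical
  have n0 : N 0 = 0 := by simpa using h2 0 0
  have ns : ∀ (W : Finset (G × I → ℝ)) (β : (G × I → ℝ) → ℝ),
      N (∑ v ∈ W, β v • v) ≤ ∑ v ∈ W, |β v| * N v := fun W β => by
    simpa only [h2] using Finset.le_sum_of_subadditive N n0.le h1 W fun v => β v • v
  obtain ⟨Z, hZ⟩ : ∃ Z : Finset (G × I → ℝ), ∀ v, v ∈ Z ↔
      v = z ∨ (∃ i, bas 1 i = v) ∨ ∃ i j, bas 1 i - bas 1 j = v :=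
    ⟨insert z (Finset.univ.image (bas 1) ∪
      Finset.univ.image fun c : I × I => bas 1 c.1 - bas 1 c.2), by simp⟩
  obtain ⟨W, hW⟩ : ∃ W : Finset (G × I → ℝ), ∀ w, w ∈ W ↔
      w = 0 ∨ ∃ g, ∃ v ∈ Z, act g v = w ∨ -act g v = w :=
    ⟨insert 0 (Finset.univ.biUnion fun g => Z.image (act g) ∪ Z.image fun v => -act g v), by
      simp [and_or_left, exists_or]⟩
  have a1 : ∀ v : G × I → ℝ, act 1 v = v := fun v => by ext c; simp [act]
  have am : ∀ (g f : G) (v : G × I → ℝ), act g (act f v) = act (g * f) v := fun g f v => by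
    ext c; simp [act, mul_assoc]
  have rb : ∀ (i : I) c, ∃ q : ℚ, bas (1 : G) i c = q := fun i c =>
    ⟨if c = (1, i) then 1 else 0, by rw [ba]; split_ifs <;> simp⟩
  have rZ : ∀ v ∈ Z, ∀ c, ∃ q : ℚ, v c = q := fun v hv c => by
    rcases (hZ v).1 hv with rfl | ⟨i, rfl⟩ | ⟨i, j, rfl⟩
    · exact hz c
    · exact rb i c
    · obtain ⟨q, hq⟩ := rb i c
      obtain ⟨r, hr⟩ := rb j c
      exact ⟨q - r, by simp [hq, hr]⟩
  have R : RFP W N := by
    refine ⟨⟨(hW _).2 (Or.inl rfl), fun w hw => (hW _).2 ?_, fun f w hw => (hW _).2 ?_,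
      fun i j _ => (hW _).2 (Or.inr ⟨1, _, (hZ _).2 (Or.inr (Or.inr ⟨i, j, rfl⟩)), Or.inl (a1 _)⟩),
      fun g i => (hW _).2 (Or.inr ⟨g, _, (hZ _).2 (Or.inr (Or.inl ⟨i, rfl⟩)),
        Or.inl (by rw [act_bas, mul_one])⟩)⟩, fun w _ => ⟨?_, ⟨h3 w, fun e => e ▸ n0⟩,
      fun a _ => h2 a w, fun β e => (congrArg N e).trans_le (ns W β), fun g => h4 g w⟩,
      fun w hw => ?_⟩
    · rcases (hW w).1 hw with rfl | ⟨g, v, hv, rfl | rfl⟩
      · exact Or.inl neg_zero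
      · exact Or.inr ⟨g, v, hv, Or.inr rfl⟩
      · exact Or.inr ⟨g, v, hv, Or.inl (neg_neg _).symm⟩
    · rcases (hW w).1 hw with rfl | ⟨g, v, hv, rfl | rfl⟩
      · exact Or.inl rfl
      · exact Or.inr ⟨f * g, v, hv, Or.inl (am _ _ _).symm⟩
      · exact Or.inr ⟨f * g, v, hv, Or.inr (by rw [← am]; rfl)⟩
    · have a := h1 w ((-1 : ℝ) • w)
      rw [h2] at a
      simp [n0] at a
      linarith
    · have : ∀ c, ∃ q : ℚ, w c = q := fun c => by
        rcases (hW w).1 hw with rfl | ⟨g, v, hv, rfl | rfl⟩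
        · exact ⟨0, by simp⟩
        · exact rZ v hv _
        · obtain ⟨q, hq⟩ := rZ v hv (g⁻¹ * c.1, c.2)
          exact ⟨-q, by simp [act, hq]⟩
      exact ⟨this, h5 w this⟩
  refine ⟨W, R, (hW _).2 (Or.inr ⟨1, z, (hZ _).2 (Or.inl rfl), Or.inl (a1 _)⟩),
    fun x => le_csInf (ne R x) ?_⟩
  rintro _ ⟨β, rfl, rfl⟩
  exact ns W β

noncomputable def N (b : Bool) (v : ℤˣ × Bool → ℝ) : ℝ :=
  max |v (1, b) + v (-1, !b)| |v (-1, !b)| + max |v (-1, b) + v (1, !b)| |v (1, !b)|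

theorem exB (b : Bool) : ∃ W, RFP W (N b) ∧ (2 : ℝ) • bas 1 b + (-1 : ℝ) • bas (-1) (!b) ∈ W ∧
    ∀ x, N b x ≤ ext W (N b) x := by
  have m : ∀ a b c d : ℝ, max |a + c| |b + d| ≤ max |a| |b| + max |c| |d| := fun a b c d =>
    max_le ((abs_add_le _ _).trans (add_le_add (le_max_left _ _) (le_max_left _ _)))
      ((abs_add_le _ _).trans (add_le_add (le_max_right _ _) (le_max_right _ _)))
  refine build _ (fun x y => ?_) (fun a x => ?_) (fun x h => ?_) (fun g x => ?_) (fun x h => ?_) _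
    fun c => ?_
  · simp only [N, Pi.add_apply, add_add_add_comm (x _) (y _)]
    linarith [m (x (1, b) + x (-1, !b)) (x (-1, !b)) (y (1, b) + y (-1, !b)) (y (-1, !b)),
      m (x (-1, b) + x (1, !b)) (x (1, !b)) (y (-1, b) + y (1, !b)) (y (1, !b))]
  · simp only [N, Pi.smul_apply, smul_eq_mul, ← mul_add, abs_mul,
      ← mul_max_of_nonneg _ _ (abs_nonneg a)]
  · have a1 := le_max_left |x (1, b) + x (-1, !b)| |x (-1, !b)|
    have a2 := le_max_right |x (1, b) + x (-1, !b)| |x (-1, !b)|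
    have a3 := le_max_left |x (-1, b) + x (1, !b)| |x (1, !b)|
    have a4 := le_max_right |x (-1, b) + x (1, !b)| |x (1, !b)|
    have := abs_nonneg (x (-1, !b))
    have := abs_nonneg (x (1, !b))
    unfold N at h
    have b1 := abs_nonpos_iff.1 (by linarith : |x (1, b) + x (-1, !b)| ≤ 0)
    have b2 := abs_nonpos_iff.1 (by linarith : |x (-1, !b)| ≤ 0)
    have b3 := abs_nonpos_iff.1 (by linarith : |x (-1, b) + x (1, !b)| ≤ 0)
    have b4 := abs_nonpos_iff.1 (by linarith : |x (1, !b)| ≤ 0)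
    ext ⟨g, i⟩
    rcases Int.units_eq_one_or g with rfl | rfl <;> rcases Bool.eq_or_eq_not i b with rfl | rfl <;>
      simp only [Pi.zero_apply] <;> linarith
  · rcases Int.units_eq_one_or g with rfl | rfl <;> simp [N, act, add_comm]
  · choose q hq using h
    exact ⟨max |q (1, b) + q (-1, !b)| |q (-1, !b)| + max |q (-1, b) + q (1, !b)| |q (1, !b)|,
      by simp [N, hq]⟩
  · refine ⟨(if c = (1, b) then 2 else 0) - if c = (-1, !b) then 1 else 0, ?_⟩
    simp only [ba, Pi.add_apply, Pi.smul_apply]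
    split_ifs <;> norm_num

theorem two [Fintype G] (h : RFP W p) [Fintype I] (g : G) (i j : I) (h1 : p (bas g i) = 1)
    (h2 : p (bas g j) = 1) (a b : ℝ) : ext W p (a • bas g i + b • bas g j) ≤ |a| + |b| := by
  have c1 := mul_le_mul_of_nonneg_left (ext_mem h (h.1.2.2.2.2 g i)) (abs_nonneg a)
  have c2 := mul_le_mul_of_nonneg_left (ext_mem h (h.1.2.2.2.2 g j)) (abs_nonneg b)
  rw [h1] at c1
  rw [h2] at c2
  linarith [ext_comb h a b (bas g i) (bas g j)]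

theorem result : ∃ (WA : Finset (Unit × Bool → ℝ)) (pA : (Unit × Bool → ℝ) → ℝ)
    (WB WC : Finset (ℤˣ × Bool → ℝ)) (pB pC : (ℤˣ × Bool → ℝ) → ℝ) (φ₁ φ₂ : Unit →* ℤˣ)
    (ψ₁ ψ₂ : Bool → Bool), RFP WA pA ∧ RFP WB pB ∧ RFP WC pC ∧ Emb WA pA WB pB φ₁ ψ₁ ∧
    Emb WA pA WC pC φ₂ ψ₂ ∧ ∀ (K M : Type) [Group K] [Fintype K] [Fintype M]
      (WD : Finset (K × M → ℝ)) (pD : (K × M → ℝ) → ℝ) (θ₁ θ₂ : ℤˣ →* K) (χ₁ χ₂ : Bool → M),
      RFP WD pD → Emb WB pB WD pD θ₁ χ₁ → Emb WC pC WD pD θ₂ χ₂ →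
      ¬ (θ₁.comp φ₁ = θ₂.comp φ₂ ∧ χ₁ ∘ ψ₁ = χ₂ ∘ ψ₂) := by
  obtain ⟨WA, RA, -, lA⟩ := build (G := Unit) (I := Bool) (fun v => |v (1, true)| + |v (1, false)|)
    (fun x y => by
      simp only [Pi.add_apply]
      linarith [abs_add_le (x (1, true)) (y (1, true)), abs_add_le (x (1, false)) (y (1, false))])
    (fun a x => by simp [abs_mul, mul_add])
    (fun x h => by
      have := abs_nonneg (x (1, true))
      have := abs_nonneg (x (1, false))
      ext ⟨g, i⟩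
      cases i <;> exact abs_nonpos_iff.1 (by linarith))
    (fun _ _ => rfl)
    (fun x h => by
      choose q hq using h
      exact ⟨|q (1, true)| + |q (1, false)|, by simp [hq]⟩) 0 fun _ => ⟨0, by simp⟩
  choose W R z l using exB
  have e : ∀ b, Emb WA _ (W b) (N b) 1 id := fun b => by
    refine ⟨injective_of_subsingleton _, injective_id, fun x => ?_⟩
    have a1 := lA x
    have a2 := two RA 1 true false (by simp [ba]) (by simp [ba]) (x (1, true)) (x (1, false))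
    have a3 := two (R b) 1 true false (by cases b <;> simp [N, ba]) (by cases b <;> simp [N, ba])
      (x (1, true)) (x (1, false))
    have a4 := l b (x (1, true) • bas 1 true + x (1, false) • bas 1 false)
    rw [show N b _ = |x (1, true)| + |x (1, false)| by cases b <;> simp [N, ba, add_comm]] at a4
    rw [show x (1, true) • bas 1 true + x (1, false) • bas 1 false = x from
      Eq.trans (by simp [Fintype.sum_prod_type]) (sum_bas x)] at a2
    simp only [Fintype.sum_prod_type, Fintype.sum_unique, Fintype.sum_bool, MonoidHom.one_apply, id]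
    exact (le_antisymm a3 a4).trans (le_antisymm a1 a2)
  refine ⟨WA, _, W true, W false, _, _, 1, 1, id, id, RA, R _, R _, e _, e _, ?_⟩
  rintro K M _ _ _ D p θ₁ θ₂ χ χ' h e1 e2 ⟨-, rfl : χ = χ'⟩
  have lin : ∀ (θ : ℤˣ →* K) (a b : ℝ) (g f : ℤˣ) (i j : Bool),
      ∑ c, (a • bas g i + b • bas f j : ℤˣ × Bool → ℝ) c • bas (θ c.1) (χ c.2) =
        a • bas (θ g) (χ i) + b • bas (θ f) (χ j) := fun θ a b g f i j => by
    classical
    simp [add_smul, Finset.sum_add_distrib, ba (G := ℤˣ)]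
  obtain ⟨T, hT⟩ : ∃ T : (K × M → ℝ) → (K × M → ℝ) → ℝ → Prop,
    ∀ u v c, T u v c ↔ ext D p ((1 : ℝ) • u + (-c) • v) ≤ 1 - c := ⟨_, fun _ _ _ => Iff.rfl⟩
  have tr : ∀ {u v w c d}, 0 ≤ c → T u v c → T v w d → T u w (c * d) := fun {u v w c d} c0 a b => by
    rw [hT] at a b ⊢
    have := ext_comb h 1 c ((1 : ℝ) • u + (-c) • v) ((1 : ℝ) • v + (-d) • w)
    rw [show (1 : ℝ) • ((1 : ℝ) • u + (-c) • v) + c • ((1 : ℝ) • v + (-d) • w) =
      (1 : ℝ) • u + (-(c * d)) • w by module, abs_one, abs_of_nonneg c0] at this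
    nlinarith
  have ta : ∀ {g f i j c} (k : K), T (bas g i) (bas f j) c → T (bas (k * g) i) (bas (k * f) j) c :=
    fun {g f i j c} k a => by
      rw [hT] at a ⊢
      rw [← act_bas, ← act_bas]
      exact (ext_act h k _).trans a
  have st : ∀ b (θ : ℤˣ →* K), Emb (W b) (N b) D p θ χ →
      T (bas 1 (χ b)) (bas (θ (-1)) (χ !b)) (1 / 2) := fun b θ e => by
    have a := e.2.2 ((2 : ℝ) • bas 1 b + (-1 : ℝ) • bas (-1) (!b))
    have a2 := ext_mem (R b) (z b)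
    rw [← a, lin, map_one, show N b _ = 1 by cases b <;> simp [N, ba] <;> norm_num] at a2
    have := ext_comb h (1 / 2) 0 ((2 : ℝ) • bas 1 (χ b) + (-1 : ℝ) • bas (θ (-1)) (χ !b)) 0
    rw [show (1 / 2 : ℝ) • ((2 : ℝ) • bas 1 (χ b) + (-1 : ℝ) • bas (θ (-1)) (χ !b)) +
      (0 : ℝ) • (0 : K × M → ℝ) = (1 : ℝ) • bas 1 (χ b) + (-(1 / 2) : ℝ) • bas (θ (-1)) (χ !b) by
      module, abs_zero, abs_of_pos one_half_pos] at this
    rw [hT]
    linarith
  have s1 := st _ _ e1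
  have s2 := ta (θ₁ (-1)) (st _ _ e2)
  rw [mul_one] at s2
  obtain ⟨k, hk⟩ : ∃ k, k = θ₁ (-1) * θ₂ (-1) := ⟨_, rfl⟩
  rw [← hk] at s2
  have s3 : ∀ n : ℕ, ∃ c, 0 < c ∧ T (bas (θ₁ (-1)) (χ false)) (bas (k ^ (n + 1)) (χ true)) c :=
    fun n => by
      induction n with
      | zero => exact ⟨_, one_half_pos, by rw [zero_add, pow_one]; exact s2⟩
      | succ n ih =>
        obtain ⟨c, c0, hc⟩ := ih
        have := ta (k ^ (n + 1)) (tr one_half_pos.le s1 s2)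
        rw [mul_one, ← pow_succ] at this
        exact ⟨_, by positivity, tr c0.le hc this⟩
  obtain ⟨c, c0, hc⟩ := s3 (orderOf k - 1)
  rw [Nat.sub_add_cancel (orderOf_pos k), pow_orderOf_eq_one, hT, ← map_one θ₁, ← lin,
    e1.2.2] at hc
  have := (l true _).trans hc
  simp [N, ba] at this
  linarith [le_max_right |1 + -c| 1, le_max_right |-c + 1| 1]

end Pool.Agent.Results.MP_66eb21_an.No
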